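import Mathlib

set_option autoImplicit false
open Finset Equiv

namespace Pool.Agent.Results.MP_433145_co.Cubic

variable {n : ℕ}

/-- The permutation of positions sending `i_j` to `i_{S[k](j)}` for `I = {i_1 < ... < i_k}` and
fixing the positions outside `I`. -/
def mv (S : ∀ k, Perm (Fin k)) (I : Finset (Fin n)) : Perm (Fin n) :=
  (S #I).extendDomain (I.orderIsoOfFin rfl).toEquiv

/-- The incorrect positions of the guess `g`. -/
def wrong (π g : Perm (Fin n)) : Finset (Fin n) := univ.filter fun i => g i ≠ π i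

/-- `guess S π r` is the guess number `r + 1`. -/
def guess (S : ∀ k, Perm (Fin k)) (π : Perm (Fin n)) : ℕ → Perm (Fin n)
  | 0 => 1
  | r + 1 => guess S π r * (mv S (wrong π (guess S π r)))⁻¹

/-- The number of secrets for which the game ends after exactly `r + 1` guesses. -/
def a (n : ℕ) (S : ∀ k, Perm (Fin k)) (r : ℕ) : ℕ :=
  #(univ.filter fun π : Perm (Fin n) => guess S π r = π ∧ ∀ r' < r, guess S π r' ≠ π)

variable {S : ∀ k, Perm (Fin k)} {I J : Finset (Fin n)} {x : Fin n}

theorem out (h : x ∉ I) : mv S I x = x := Perm.extendDomain_apply_not_subtype _ _ h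

theorem app (h : x ∈ I) : mv S I x = I.orderIsoOfFin rfl (S #I ((I.orderIsoOfFin rfl).symm ⟨x, h⟩)) :=
  Perm.extendDomain_apply_subtype _ _ h

theorem ins (h : x ∈ I) : mv S I x ∈ I := by rw [app h]; exact Subtype.prop _

def Der (n : ℕ) (S : ∀ k, Perm (Fin k)) : Prop := ∀ k, 2 ≤ k → k ≤ n → ∀ j, S k j ≠ j

theorem nf (d : Der n S) (h : x ∈ I) (h2 : 2 ≤ #I) : mv S I x ≠ x := by
  rw [app h]
  intro e
  refine d #I h2 (by simpa using card_le_univ I) ((I.orderIsoOfFin rfl).symm ⟨x, h⟩) ?_
  rw [OrderIso.eq_symm_apply]; exact Subtype.ext e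

def bad (S : ∀ k, Perm (Fin k)) (I : Finset (Fin n)) : Finset (Finset (Fin n)) :=
  (I.powerset.filter fun J => 2 ≤ #J).filter fun J => ∃ x ∈ I, mv S J (mv S I x) = x

def good (S : ∀ k, Perm (Fin k)) (I : Finset (Fin n)) : Finset (Finset (Fin n)) :=
  (I.powerset.filter fun J => 2 ≤ #J).filter fun J => ¬ ∃ x ∈ I, mv S J (mv S I x) = x

theorem fix_iff (f g : Perm (Fin n)) : (f⁻¹ * g⁻¹) x = x ↔ g (f x) = x := by
  rw [Perm.mul_apply, Perm.inv_eq_iff_eq, Perm.inv_eq_iff_eq, eq_comm]

theorem count (d : Der n S) : a n S 2 = ∑ I : Finset (Fin n), #(good S I) := by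
  rw [← card_sigma]
  have key : ∀ I J : Finset (Fin n), J ∈ good S I → wrong ((mv S I)⁻¹ * (mv S J)⁻¹) 1 = I ∧
      wrong ((mv S I)⁻¹ * (mv S J)⁻¹) (mv S I)⁻¹ = J := by
    intro I J h
    simp only [good, mem_filter, mem_powerset, not_exists, not_and] at h
    obtain ⟨⟨s, h2⟩, h⟩ := h
    constructor <;> ext x <;> simp only [wrong, mem_filter, mem_univ, true_and]
    · rw [Perm.one_apply, ne_comm, Ne, fix_iff]
      refine ⟨fun e => by_contra fun c => e ?_, h x⟩
      rw [out c, out fun z => c (s z)]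
    · rw [Perm.mul_apply, Ne, EmbeddingLike.apply_eq_iff_eq, Perm.eq_inv_iff_eq]
      exact ⟨fun e => by_contra fun c => e (out c), fun e => nf d e h2⟩
  refine card_nbij' (fun π => ⟨wrong π 1, wrong π (mv S (wrong π 1))⁻¹⟩)
    (fun z => (mv S z.1)⁻¹ * (mv S z.2)⁻¹) (fun π h => ?_) (fun z h => ?_) (fun π h => ?_) fun z h => ?_
  · obtain ⟨h1, h2⟩ := (mem_filter.mp (mem_coe.mp h)).2
    have h3 := h2 1 (by norm_num)
    simp only [guess, one_mul] at h1 h3
    refine mem_coe.mpr (mem_sigma.mpr ⟨mem_univ _, mem_filter.mpr ⟨mem_filter.mpr ⟨mem_powerset.mpr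
      fun x hx => by_contra fun c => (mem_filter.mp hx).2 ?_, ?_⟩, fun ⟨x, hx, e⟩ => ?_⟩⟩)
    · have : x = π x := by simpa [wrong] using c
      rw [← this, Perm.inv_eq_iff_eq, out c]
    · obtain ⟨i, hi⟩ : ∃ i, (mv S (wrong π 1))⁻¹ i ≠ π i := by
        by_contra c
        push Not at c
        exact h3 (Equiv.ext c)
      refine one_lt_card.mpr ⟨i, by simpa [wrong] using hi, π⁻¹ ((mv S (wrong π 1))⁻¹ i), ?_, ?_⟩
      · refine mem_filter.mpr ⟨mem_univ _, ?_⟩
        rw [show ∀ y, π (π⁻¹ y) = y from π.apply_symm_apply, Ne, EmbeddingLike.apply_eq_iff_eq, Perm.inv_eq_iff_eq]; exact hi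
      · rw [Ne, Perm.eq_inv_iff_eq]; exact hi.symm
    · rw [← fix_iff, h1] at e
      exact (mem_filter.mp hx).2 e.symm
  · have h := (mem_sigma.mp (mem_coe.mp h)).2
    obtain ⟨k1, k2⟩ := key _ _ h
    obtain ⟨s, h2⟩ := mem_filter.mp (mem_filter.mp h).1
    obtain ⟨x, hx⟩ := card_pos.mp (show 0 < #z.2 by omega)
    refine mem_coe.mpr (mem_filter.mpr ⟨mem_univ _, by simp only [guess, one_mul, k1, k2], fun r hr => ?_⟩)
    interval_cases r
    · have := mem_powerset.mp s hx
      rw [← k1] at this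
      exact fun e => (mem_filter.mp this).2 (DFunLike.congr_fun e x)
    · rw [← k2] at hx
      simp only [guess, one_mul, k1]
      exact fun e => (mem_filter.mp hx).2 (DFunLike.congr_fun e x)
  · simpa only [guess, one_mul] using (mem_filter.mp (mem_coe.mp h)).2.1
  · obtain ⟨k1, k2⟩ := key _ _ (mem_sigma.mp (mem_coe.mp h)).2
    simp only [k1, k2]

theorem rot' {k : ℕ} (e : Fin k ≃o I) (j : Fin k) :
    (j < finRotate k j ∧ ∀ z, ¬ (e j < z ∧ z < e (finRotate k j))) ∨
      ∀ z, e (finRotate k j) ≤ z ∧ z ≤ e j := by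
  rcases k with _ | k
  · exact j.elim0
  rcases eq_or_ne j (Fin.last k) with rfl | h
  · right
    intro z
    obtain ⟨i, rfl⟩ := e.surjective z
    simp [Fin.le_last]
  · have := coe_finRotate_of_ne_last h
    refine Or.inl ⟨by rw [Fin.lt_def]; omega, fun z => ?_⟩
    obtain ⟨i, rfl⟩ := e.surjective z
    simp only [OrderIso.lt_iff_lt, Fin.lt_def]; omega

theorem rot (h : x ∈ I) : (x < mv finRotate I x ∧ ∀ z ∈ I, ¬ (x < z ∧ z < mv finRotate I x)) ∨
    ∀ z ∈ I, mv finRotate I x ≤ z ∧ z ≤ x := by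
  rw [app h]
  have := rot' (I.orderIsoOfFin rfl) ((I.orderIsoOfFin rfl).symm ⟨x, h⟩)
  rw [← (I.orderIsoOfFin rfl).lt_iff_lt, OrderIso.apply_symm_apply] at this
  exact this.imp (fun t => ⟨t.1, fun z hz => t.2 ⟨z, hz⟩⟩) fun t z hz => t ⟨z, hz⟩

theorem dcs : Der n finRotate := by
  intro k h _ j e
  obtain ⟨k, rfl⟩ : ∃ m, k = m + 2 := ⟨k - 2, by omega⟩
  simp at e

theorem bad_cs : bad finRotate I ⊆ I.image fun x => {x, mv finRotate I x} := by
  intro J h
  simp only [bad, mem_filter, mem_powerset] at h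
  obtain ⟨⟨s, h2⟩, x, hx, e⟩ := h
  refine mem_image.mpr ⟨x, hx, ?_⟩
  have n1 := nf dcs hx (h2.trans (card_le_card s))
  have hy : mv finRotate I x ∈ J := by_contra fun c => n1 ((out c).symm.trans e)
  have hxJ : x ∈ J := e ▸ ins hy
  have r1 := rot hx
  have r2 := rot hy
  rw [e] at r2
  refine Subset.antisymm (by simp [insert_subset_iff, hy, hxJ]) fun z hz => ?_
  simp only [mem_insert, mem_singleton]
  rcases r1 with r1 | r1 <;> rcases r2 with r2 | r2
  · have := r1.1; have := r2.1; omega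
  · have := r1.2 z (s hz); have := r2 z hz; omega
  · have := r1 z (s hz); have := r2.2 z hz; omega
  · have := r1 x hx; have := r2 x hxJ; have := r2 _ hy; omega

theorem pair_bad (d : Der n S) (hx : x ∈ I) (h : 2 ≤ #I) : {x, mv S I x} ∈ bad S I := by
  have c := card_pair (nf d hx h).symm
  refine mem_filter.mpr ⟨mem_filter.mpr ⟨by simp [insert_subset_iff, hx, ins hx], c.ge⟩, x, hx, ?_⟩
  have m : mv S I x ∈ ({x, mv S I x} : Finset _) := by simp
  have := ins (S := S) m
  have := nf d m c.ge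
  simp_all

theorem bad_le (d : Der n S) (I : Finset (Fin n)) : #(bad finRotate I) ≤ #(bad S I) := by
  by_cases h : #I ≤ 2
  · refine card_le_card fun J hJ => ?_
    obtain ⟨x, hx, rfl⟩ := mem_image.mp (bad_cs hJ)
    obtain ⟨s, h2⟩ := mem_filter.mp (mem_filter.mp hJ).1
    have s := mem_powerset.mp s
    have h3 := h2.trans (card_le_card s)
    have b := pair_bad d hx h3
    obtain ⟨s', h2'⟩ := mem_filter.mp (mem_filter.mp b).1
    rw [eq_of_subset_of_card_le (mem_powerset.mp s') (h.trans h2')] at b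
    rwa [eq_of_subset_of_card_le s (h.trans h2)]
  refine ((card_le_card bad_cs).trans card_image_le).trans ?_
  have : ∀ x, ∃ c ∈ I, c ∉ ({x, mv S I x} : Finset _) := fun x =>
    exists_mem_notMem_of_card_lt_card (card_le_two.trans_lt (by omega))
  choose c c1 c2 using this
  have N := fun x (hx : x ∈ I) => nf d hx (by omega)
  have c3 : ∀ x ∈ I, #(insert (c x) {x, mv S I x}) = 3 := fun x hx => by
    rw [card_insert_of_notMem (c2 x), card_pair (N x hx).symm]
  refine card_le_card_of_injOn (fun x => if mv S I (mv S I x) = x ∧ mv S I x < x then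
    insert (c x) {x, mv S I x} else {x, mv S I x}) (fun x hx => ?_) fun x hx y hy e => ?_
  · have hx := mem_coe.mp hx
    beta_reduce
    split_ifs with t
    · refine mem_coe.mpr (mem_filter.mpr ⟨mem_filter.mpr
        ⟨by simp [insert_subset_iff, hx, ins hx, c1], by rw [c3 x hx]; omega⟩, ?_⟩)
      by_contra q
      push Not at q
      have q1 := q x hx
      have q2 := q _ (ins (S := S) hx)
      rw [t.1] at q2
      have m1 : x ∈ insert (c x) ({x, mv S I x} : Finset _) := by simp
      have m2 : mv S I x ∈ insert (c x) ({x, mv S I x} : Finset _) := by simp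
      have a1 := ins (S := S) m1
      have a2 := ins (S := S) m2
      have b1 := nf d m1 (by rw [c3 x hx]; omega)
      have b2 := nf d m2 (by rw [c3 x hx]; omega)
      simp only [mem_insert, mem_singleton, q1, q2, b1, b2, or_false] at a1 a2
      exact N x hx ((mv S _).injective (a2.trans a1.symm))
    · exact pair_bad d hx (by omega)
  · have hx := mem_coe.mp hx
    have hy := mem_coe.mp hy
    by_contra xy
    beta_reduce at e
    have inj := (mv S I).injective
    split_ifs at e with t1 t2 t2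
    · have m1 : y ∈ insert (c x) ({x, mv S I x} : Finset _) := by rw [e]; simp
      have m2 : mv S I y ∈ insert (c x) ({x, mv S I x} : Finset _) := by rw [e]; simp
      simp only [mem_insert, mem_singleton] at m1 m2
      have := N y hy
      grind
    · have := congrArg card e
      rw [c3 x hx, card_pair (N y hy).symm] at this; omega
    · have := congrArg card e
      rw [c3 y hy, card_pair (N x hx).symm] at this; omega
    · have m1 : y ∈ ({x, mv S I x} : Finset _) := by rw [e]; simp
      have m2 : x ∈ ({y, mv S I y} : Finset _) := by rw [← e]; simp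
      simp only [mem_insert, mem_singleton] at m1 m2
      grind

theorem result (n : ℕ) (_ : 4 ≤ n) (S : ∀ k, Perm (Fin k))
    (d : ∀ k, 2 ≤ k → k ≤ n → ∀ j, S k j ≠ j) : a n S 2 ≤ a n finRotate 2 := by
  rw [count d, count dcs]
  refine sum_le_sum fun I _ => ?_
  have h1 := card_filter_add_card_filter_not (s := I.powerset.filter fun J => 2 ≤ #J)
    fun J => ∃ x ∈ I, mv S J (mv S I x) = x
  have h2 := card_filter_add_card_filter_not (s := I.powerset.filter fun J => 2 ≤ #J)
    fun J => ∃ x ∈ I, mv finRotate J (mv finRotate I x) = x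
  have := bad_le d I
  unfold bad at this
  unfold good
  omega

end Pool.Agent.Results.MP_433145_co.Cubic
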